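import Pool.Agent.Work.MP_9371de_an.Defs

/-!
The items of the proof of MP_9371de_an as propositions.  Every item may be proved assuming
any of the EARLIER claims as hypotheses.
-/

open MeasureTheory Set Filter Topology
open scoped Real InnerProductSpace

namespace Pool.Agent.Work.MP_9371de_an

/-! ### H: the heat kernel -/

/-- [H1] elementary facts about the Gauss kernel. -/
def ClaimH1 : Prop := ∀ (d : ℕ) (t : ℝ), 0 < t →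
  (∀ x : E d, 0 < heat d t x) ∧ Continuous (heat d t) ∧ Integrable (heat d t) ∧
  (∫ x : E d, heat d t x = 1) ∧
  (∀ x : E d, heat d t x ≤ (4 * π * t) ^ (-(d : ℝ) / 2)) ∧
  (∀ x : E d, heat d t (-x) = heat d t x) ∧
  (∀ x : E d, HasGradientAt (heat d t) (gheat d t x) x) ∧
  Continuous (gheat d t) ∧ (∀ x : E d, gheat d t (-x) = -gheat d t x)

/-- [H1m] joint measurability of the Gauss kernel and its gradient. -/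
def ClaimH1m : Prop := ∀ d : ℕ,
  Measurable (fun p : ℝ × E d => heat d p.1 p.2) ∧ Measurable (fun p : ℝ × E d => gheat d p.1 p.2)

/-- [H2] second moments. -/
def ClaimH2 : Prop := ∀ (d : ℕ) (t : ℝ), 0 < t →
  (∀ a b : E d, Integrable (fun y : E d => heat d t y * (⟪a, y⟫_ℝ * ⟪b, y⟫_ℝ)) ∧
    ∫ y : E d, heat d t y * (⟪a, y⟫_ℝ * ⟪b, y⟫_ℝ) = 2 * t * ⟪a, b⟫_ℝ) ∧
  Integrable (fun y : E d => heat d t y * ‖y‖ ^ 2) ∧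
  (∫ y : E d, heat d t y * ‖y‖ ^ 2 = 2 * d * t) ∧
  Integrable (fun y : E d => heat d t y * ‖y‖) ∧
  (∫ y : E d, heat d t y * ‖y‖ ≤ Real.sqrt (2 * d * t))

/-- [H3] semigroup property. -/
def ClaimH3 : Prop := ∀ (d : ℕ) (s t : ℝ), 0 < s → 0 < t → ∀ x : E d,
  (∫ y : E d, heat d s (x - y) * heat d t y = heat d (s + t) x) ∧
  (∫ y : E d, heat d s (x - y) • gheat d t y = gheat d (s + t) x)

/-- [H4] pointwise bounds of the gradient of the kernel. -/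
def ClaimH4 : Prop := ∀ d : ℕ, ∃ C : ℝ, 0 < C ∧ ∀ t : ℝ, 0 < t → ∀ x : E d,
  ‖gheat d t x‖ ≤ C * t ^ (-(1 / 2 : ℝ)) * heat d (2 * t) x ∧
  heat d t x ≤ C * heat d (2 * t) x

/-- [H5] exponential moments. -/
def ClaimH5 : Prop := ∀ (d : ℕ) (T : ℝ), ∃ C : ℝ, 0 < C ∧ ∀ t : ℝ, 0 < t → t ≤ T →
  Integrable (fun y : E d => Real.exp ‖y‖ * heat d t y) ∧
  (∫ y : E d, Real.exp ‖y‖ * heat d t y ≤ C) ∧
  Integrable (fun y : E d => Real.exp ‖y‖ * ‖y‖ ^ 2 * heat d t y) ∧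
  Integrable (fun y : E d => Real.exp ‖y‖ * ‖gheat d t y‖) ∧
  (∫ y : E d, Real.exp ‖y‖ * ‖gheat d t y‖ ≤ C * t ^ (-(1 / 2 : ℝ)))

/-- [H6] comparison of the kernel with an exponential weight. -/
def ClaimH6 : Prop := ∀ (d : ℕ) (κ a T : ℝ), 0 < κ → 0 < a → ∃ C : ℝ, 0 < C ∧
  ∀ t, a ≤ t → t ≤ T → ∀ x : E d,
    heat d t x ≤ C * Real.exp (-κ * Real.sqrt (1 + ‖x‖ ^ 2))

/-! ### P: the operators `P`, `gP`, `Q` -/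

/-- [P1] `P_t u` is `C¹` with gradient `gP_t u` for bounded measurable `u`. -/
def ClaimP1 : Prop := ∀ (d : ℕ) (t : ℝ) (u : E d → ℝ) (M : ℝ), 0 < t → Measurable u →
  (∀ x, |u x| ≤ M) →
  (∀ x, HasGradientAt (P t u) (gP t u x) x) ∧ Continuous (gP t u) ∧ (∀ x, |P t u x| ≤ M)

/-- [P2] semigroup identities for `P` and `Q`. -/
def ClaimP2 : Prop := ∀ (d : ℕ) (s t : ℝ) (u : E d → ℝ) (F : E d → E d) (M : ℝ),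
  0 < s → 0 < t → Measurable u → (∀ x, |u x| ≤ M) → Measurable F → (∀ x, ‖F x‖ ≤ M) →
  ∀ x, P s (P t u) x = P (s + t) u x ∧ P s (Q t F) x = Q (s + t) F x

/-- [P3] `Q_t F` is `C¹`, its gradient and its size. -/
def ClaimP3 : Prop := ∀ d : ℕ, ∃ C : ℝ, 0 < C ∧
  ∀ (t : ℝ) (F : E d → E d) (M : ℝ), 0 < t → Measurable F → (∀ x, ‖F x‖ ≤ M) →
  (∀ x, HasGradientAt (Q t F) (gP (t / 2) (Q (t / 2) F) x) x) ∧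
  Continuous (gP (t / 2) (Q (t / 2) F)) ∧ Continuous (Q t F) ∧
  (∀ x, |Q t F x| ≤ C * t ^ (-(1 / 2 : ℝ)) * M)

/-- [P4] the gradient of `Q_t F` for (a.e.) Lipschitz `F`. -/
def ClaimP4 : Prop := ∀ d : ℕ, ∃ C : ℝ, 0 < C ∧
  ∀ (t : ℝ) (F : E d → E d) (M L : ℝ), 0 < t → 0 ≤ L → Measurable F → (∀ x, ‖F x‖ ≤ M) →
  (∀ k, ∀ᵐ y, ‖F (y + k) - F y‖ ≤ L * ‖k‖) →
  ∀ x, ‖gP (t / 2) (Q (t / 2) F) x‖ ≤ C * t ^ (-(1 / 2 : ℝ)) * L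

/-- [P5] continuity in the time variable. -/
def ClaimP5 : Prop := ∀ (d : ℕ) (u : E d → ℝ) (F : E d → E d) (M : ℝ), Measurable u →
  (∀ x, |u x| ≤ M) → Measurable F → (∀ x, ‖F x‖ ≤ M) → ∀ x,
  ContinuousOn (fun t => P t u x) (Ioi 0) ∧ ContinuousOn (fun t => gP t u x) (Ioi 0) ∧
  ContinuousOn (fun t => Q t F x) (Ioi 0) ∧
  ContinuousOn (fun t => gP (t / 2) (Q (t / 2) F) x) (Ioi 0)

/-- [P6] approximation of the gradient of a `C¹_b` function. -/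
def ClaimP6 : Prop := ∀ (d : ℕ) (ψ : E d → ℝ) (M : ℝ), ContDiff ℝ 1 ψ →
  (∀ x, |ψ x| ≤ M) → (∀ x, ‖gradient ψ x‖ ≤ M) →
  (∀ σ, 0 < σ → ∀ x, ‖gP σ ψ x‖ ≤ M) ∧
  (∀ x, Tendsto (fun σ => gP σ ψ x) (𝓝[>] 0) (𝓝 (gradient ψ x)))

/-- [P7] duality. -/
def ClaimP7 : Prop := ∀ (d : ℕ) (σ : ℝ) (ψ : E d → ℝ) (F : E d → E d) (M : ℝ), 0 < σ →
  Measurable ψ → (∀ x, |ψ x| ≤ M) → Measurable F → Integrable F →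
  Integrable (fun x => ψ x * Q σ F x) ∧
  ∫ x, ψ x * Q σ F x = -∫ y, ⟪gP σ ψ y, F y⟫_ℝ

/-- [PM] joint measurability of the operators with parameters `(σ, s, x)`. -/
def ClaimPM : Prop := ∀ (d : ℕ) (u : ℝ → E d → ℝ) (F : ℝ → E d → E d),
  Measurable (fun p : ℝ × E d => u p.1 p.2) → Measurable (fun p : ℝ × E d => F p.1 p.2) →
  Measurable (fun p : (ℝ × ℝ) × E d => P p.1.1 (u p.1.2) p.2) ∧
  Measurable (fun p : (ℝ × ℝ) × E d => gP p.1.1 (u p.1.2) p.2) ∧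
  Measurable (fun p : (ℝ × ℝ) × E d => Q p.1.1 (F p.1.2) p.2) ∧
  Measurable (fun p : (ℝ × ℝ) × E d => gP p.1.1 (Q p.1.1 (F p.1.2)) p.2)

/-- [J] the generator in weak form. -/
def ClaimJ : Prop := ∀ (d : ℕ) (κ : ℝ) (h u ψ : E d → ℝ) (C M : ℝ), 0 < κ → κ ≤ 1 →
  Weight d κ h → ContDiff ℝ 1 u → (∀ x, |u x| ≤ C * h x) → (∀ x, ‖gradient u x‖ ≤ C * h x) →
  ContDiff ℝ 1 ψ → (∀ x, |ψ x| ≤ M) → (∀ x, ‖gradient ψ x‖ ≤ M) →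
  Tendsto (fun δ => δ⁻¹ * ∫ x, ψ x * (P δ u x - u x)) (𝓝[>] 0)
    (𝓝 (-∫ x, ⟪gradient ψ x, gradient u x⟫_ℝ))

/-! ### V: the drift -/

/-- [W] an attractive potential has bounded variation. -/
def ClaimW : Prop := ∀ (d : ℕ), 0 < d → ∀ W : E d → ℝ, Attractive W → (∃ C, ∀ x, |W x| ≤ C) →
  Integrable W → ∃ A K, Pot d A K W

/-- [V1] bounds for `V = W*u` and the drift. -/
def ClaimV1 : Prop := ∀ (d : ℕ) (A K : ℝ) (W u : E d → ℝ) (N : ℝ), Pot d A K W →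
  Integrable u → (∀ᵐ x, |u x| ≤ N) →
  (∀ x y, |V W u x - V W u y| ≤ K * N * ‖x - y‖) ∧ (∀ x, ‖drift W u x‖ ≤ K * N) ∧
  (∀ x, |V W u x| ≤ A * ∫ y, |u y|) ∧ Continuous (V W u) ∧ Measurable (drift W u)

/-- [V2] differences of the drift. -/
def ClaimV2 : Prop := ∀ (d : ℕ) (A K : ℝ) (W u : E d → ℝ) (M N : ℝ) (k : E d), Pot d A K W →
  Integrable u → (∀ᵐ x, |u x| ≤ M) → (∀ᵐ x, |u (x + k) - u x| ≤ N) →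
  ∀ᵐ x, ‖drift W u (x + k) - drift W u x‖ ≤ K * N

/-- [V3] the drift of a `C¹` density. -/
def ClaimV3 : Prop := ∀ (d : ℕ) (A K : ℝ) (W u : E d → ℝ) (N : ℝ), Pot d A K W →
  ContDiff ℝ 1 u → Integrable u → (∀ x, |u x| ≤ N) → (∀ x, ‖gradient u x‖ ≤ N) →
  (∀ x, HasGradientAt (V W u) (∫ y, W (x - y) • gradient u y) x) ∧
  Continuous (fun x => ∫ y, W (x - y) • gradient u y)

/-! ### R: regularity of the solution -/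

/-- [BETA] -/
def ClaimBeta : Prop := ∀ a t : ℝ, a < t →
  IntervalIntegrable (fun s => (t - s) ^ (-(1 / 2 : ℝ)) * (s - a) ^ (-(1 / 2 : ℝ))) volume a t ∧
  ∫ s in a..t, (t - s) ^ (-(1 / 2 : ℝ)) * (s - a) ^ (-(1 / 2 : ℝ)) ≤ 4

/-- [VC] continuity of Volterra integrals. -/
def ClaimVC : Prop := ∀ (F : Type) [NormedAddCommGroup F] [NormedSpace ℝ F]
  [CompleteSpace F] (a T C : ℝ)
  (q : ℝ → ℝ → F),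
  (∀ s, a < s → ContinuousOn (fun t => q t s) (Ioi s)) →
  (∀ s t, a < s → s < t → t ≤ T → ‖q t s‖ ≤ C * (t - s) ^ (-(1 / 2 : ℝ))) →
  (∀ t, a < t → t ≤ T → AEStronglyMeasurable (q t) (volume.restrict (Ioc a t))) →
  ContinuousOn (fun t => ∫ s in a..t, q t s) (Ioo a T)

/-- [CL] a mild solution has a clean version. -/
def ClaimClean : Prop := ∀ (d : ℕ) (A K : ℝ) (W ρ0 : E d → ℝ) (ρ : ℝ → E d → ℝ), 0 < d →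
  Pot d A K W → IsSolution d 1 W ρ0 ρ →
  ∃ (m : ℝ) (ρ' : ℝ → E d → ℝ), Clean d W m ρ' ∧ ∀ t, 0 < t → ρ t =ᵐ[volume] ρ' t

/-- [R2] Gaussian majorant. -/
def ClaimR2 : Prop := ∀ (d : ℕ) (A K m : ℝ) (W : E d → ℝ) (ρ : ℝ → E d → ℝ), Pot d A K W →
  Clean d W m ρ → ∀ T : ℝ, ∃ C, ∀ t, 0 < t → t ≤ T → ∀ x, ρ t x ≤ C * P (2 * t) (ρ 0) x

/-- [WT] weights dominating heat extensions. -/
def ClaimWT : Prop := ∀ (d : ℕ) (κ : ℝ) (u : E d → ℝ), 0 < κ → κ ≤ 1 → Measurable u →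
  Integrable u → (∀ x, 0 ≤ u x) →
  ∃ h, Weight d κ h ∧ ∀ a T : ℝ, 0 < a → ∃ C, ∀ t, a ≤ t → t ≤ T → ∀ x, P t u x ≤ C * h x

/-- [R4] weighted Lipschitz bound. -/
def ClaimR4 : Prop := ∀ (d : ℕ) (A K m κ : ℝ) (W h : E d → ℝ) (ρ : ℝ → E d → ℝ),
  Pot d A K W → Clean d W m ρ → 0 < κ → κ ≤ 1 → Weight d κ h → Dom d h ρ →
  ∀ a T : ℝ, 0 < a → ∃ L, ∀ t, a ≤ t → t ≤ T → ∀ k x, ‖k‖ ≤ 1 →
    |ρ t (x + k) - ρ t x| ≤ L * ‖k‖ * h x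

/-- The solution is Lipschitz in `x`, uniformly on compact time intervals. -/
def Lip (d : ℕ) (ρ : ℝ → E d → ℝ) : Prop :=
  ∀ a T : ℝ, 0 < a → ∃ L, ∀ t, a ≤ t → t ≤ T → ∀ k x, |ρ t (x + k) - ρ t x| ≤ L * ‖k‖

/-- [FL] the flux is (a.e.) Lipschitz in `x`. -/
def ClaimFL : Prop := ∀ (d : ℕ) (A K m : ℝ) (W : E d → ℝ) (ρ : ℝ → E d → ℝ),
  Pot d A K W → Clean d W m ρ → Lip d ρ →
  ∀ a T : ℝ, 0 < a → ∃ L, ∀ t, a ≤ t → t ≤ T → ∀ k, ∀ᵐ y,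
    ‖flux W (ρ t) (y + k) - flux W (ρ t) y‖ ≤ L * ‖k‖

/-- [R5] the solution is `C¹` in `x`, with a formula for the gradient. -/
def ClaimR5 : Prop := ∀ (d : ℕ) (A K m : ℝ) (W : E d → ℝ) (ρ : ℝ → E d → ℝ),
  Pot d A K W → Clean d W m ρ → Lip d ρ →
  (∀ t, 0 < t → ContDiff ℝ 1 (ρ t)) ∧
  ∀ a t, 0 < a → a < t → ∀ x, gradient (ρ t) x = gP (t - a) (ρ a) x +
    ∫ s in a..t, gP ((t - s) / 2) (Q ((t - s) / 2) (flux W (ρ s))) x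

/-- [R6] continuity in time of the solution and its gradient. -/
def ClaimR6 : Prop := ∀ (d : ℕ) (A K m : ℝ) (W : E d → ℝ) (ρ : ℝ → E d → ℝ),
  Pot d A K W → Clean d W m ρ → Lip d ρ → ∀ x,
  ContinuousOn (fun t => ρ t x) (Ioi 0) ∧ ContinuousOn (fun t => gradient (ρ t) x) (Ioi 0)

/-- [R9] weak form. -/
def ClaimR9 : Prop := ∀ (d : ℕ) (A K m κ : ℝ) (W h : E d → ℝ) (ρ : ℝ → E d → ℝ),
  Pot d A K W → Clean d W m ρ → 0 < κ → κ ≤ 1 → Weight d κ h → Dom d h ρ → GDom d h ρ →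
  (∀ t, 0 < t → ContDiff ℝ 1 (ρ t)) →
  (∀ x, ContinuousOn (fun t => ρ t x) (Ioi 0)) →
  (∀ x, ContinuousOn (fun t => gradient (ρ t) x) (Ioi 0)) →
  (∀ t, 0 < t → Continuous (drift W (ρ t))) →
  (∀ x, ContinuousOn (fun t => drift W (ρ t) x) (Ioi 0)) →
  ∀ (ψ : E d → ℝ) (M : ℝ), ContDiff ℝ 1 ψ → (∀ x, |ψ x| ≤ M) → (∀ x, ‖gradient ψ x‖ ≤ M) →
    ∀ s t, 0 < s → s ≤ t →
      (∫ x, ψ x * ρ t x) - ∫ x, ψ x * ρ s x =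
        - ∫ r in s..t, ∫ x, ⟪gradient ψ x, cur W (ρ r) x⟫_ℝ

/-- [GOOD] assembly of the regularity part. -/
def ClaimGood : Prop := ∀ (d : ℕ) (A K m : ℝ) (W : E d → ℝ) (ρ : ℝ → E d → ℝ), 0 < d →
  Pot d A K W → Clean d W m ρ → Good d W A K m ρ

/-- [SC] scaling to `ε = 1`. -/
def ClaimSC : Prop := ∀ (d : ℕ) (ε : ℝ) (W ρ0 : E d → ℝ) (ρ : ℝ → E d → ℝ), 0 < ε →
  IsSolution d ε W ρ0 ρ →
  IsSolution d 1 (fun x => ε⁻¹ * W x) ρ0 (fun t => ρ (t / ε))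

/-! ### D: decay -/

/-- [TR] translation estimates. -/
def ClaimTR : Prop := ∀ (d : ℕ) (u : E d → ℝ), ContDiff ℝ 1 u →
  (Integrable (gradient u) → ∀ k, Integrable (fun x => u (x + k) - u x) ∧
    ∫ x, |u (x + k) - u x| ≤ ‖k‖ * ∫ x, ‖gradient u x‖) ∧
  (Integrable (fun x => ‖gradient u x‖ ^ 2) → ∀ k,
    Integrable (fun x => (u (x + k) - u x) ^ 2) ∧
    ∫ x, (u (x + k) - u x) ^ 2 ≤ ‖k‖ ^ 2 * ∫ x, ‖gradient u x‖ ^ 2)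

/-- [NASH] -/
def ClaimNash : Prop := ∀ (d : ℕ) (u : E d → ℝ) (M τ : ℝ), ContDiff ℝ 1 u → (∀ x, 0 ≤ u x) →
  (∀ x, u x ≤ M) → Integrable u → Integrable (fun x => ‖gradient u x‖ ^ 2) → 0 < τ →
  ∫ x, u x ^ 2 ≤ d * τ * (∫ x, ‖gradient u x‖ ^ 2) +
    (4 * π * τ) ^ (-(d : ℝ) / 2) * (∫ x, u x) ^ 2

/-- [E4] small `BV` norm and bounded mass imply small `L^(1+1/(2d))` norm. -/
def ClaimE4 : Prop := ∀ (d : ℕ) (M η : ℝ), 0 < d → 0 < η → ∃ α : ℝ, 0 < α ∧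
  ∀ (f : E d → ℝ) (N : ℝ), ContDiff ℝ 1 f → (∀ x, 0 ≤ f x) → (∀ x, f x ≤ N) → Integrable f →
    Integrable (gradient f) → ∫ x, f x ≤ M → ∫ x, ‖gradient f x‖ ≤ α →
    Integrable (fun x => f x ^ (1 + 1 / (2 * (d : ℝ)))) ∧
    ∫ x, f x ^ (1 + 1 / (2 * (d : ℝ))) ≤ η

/-- [CC] the current. -/
def ClaimCC : Prop := ∀ (d : ℕ) (A K m : ℝ) (W : E d → ℝ) (ρ : ℝ → E d → ℝ),
  Good d W A K m ρ →
  (∀ t, 0 < t → Continuous (cur W (ρ t))) ∧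
  (∀ x, ContinuousOn (fun t => cur W (ρ t) x) (Ioi 0)) ∧
  (∀ a T : ℝ, 0 < a → ∃ B, 0 ≤ B ∧ ∀ t, a ≤ t → t ≤ T → ∀ x,
    ρ t x ≤ B ∧ ‖gradient (ρ t) x‖ ≤ B ∧ ‖drift W (ρ t) x‖ ≤ B) ∧
  (∀ κ h, 0 < κ → κ ≤ 1 → Weight d κ h → Dom d h ρ → GDom d h ρ →
    ∀ a T : ℝ, 0 < a → ∃ C, 0 ≤ C ∧ ∀ t, a ≤ t → t ≤ T → ∀ x,
      ρ t x ≤ C * h x ∧ ‖gradient (ρ t) x‖ ≤ C * h x ∧ ‖cur W (ρ t) x‖ ≤ C * h x)

/-- [DL] differentiation lemma. -/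
def ClaimDL : Prop := ∀ (d : ℕ) (A K m : ℝ) (W : E d → ℝ) (ρ : ℝ → E d → ℝ),
  Good d W A K m ρ → ∀ (t0 M : ℝ) (ψ : ℝ → E d → ℝ), 0 < t0 →
  (∀ᶠ t in 𝓝 t0, ContDiff ℝ 1 (ψ t) ∧ (∀ x, |ψ t x| ≤ M) ∧ (∀ x, ‖gradient (ψ t) x‖ ≤ M)) →
  (∀ x, Tendsto (fun t => gradient (ψ t) x) (𝓝 t0) (𝓝 (gradient (ψ t0) x))) →
  Tendsto (fun t => (t - t0)⁻¹ * ∫ x, ψ t x * (ρ t x - ρ t0 x)) (𝓝[≠] t0)
    (𝓝 (-∫ x, ⟪gradient (ψ t0) x, cur W (ρ t0) x⟫_ℝ))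

/-- A convex `C²` function on `[0,∞)` with `φ(0) = 0`. -/
structure ConvFn (φ φ' φ'' : ℝ → ℝ) : Prop where
  zero : φ 0 = 0
  d1 : ∀ z, 0 ≤ z → HasDerivAt φ (φ' z) z
  d2 : ∀ z, 0 ≤ z → HasDerivAt φ' (φ'' z) z
  cont : ContinuousOn φ'' (Ici 0)
  nonneg : ∀ z, 0 ≤ z → 0 ≤ φ'' z

/-- The entropy production `∫ φ''(ρ/H) ⟨∇(ρ/H), j⟩`. -/
noncomputable def entProd {d : ℕ} (W H : E d → ℝ) (φ'' : ℝ → ℝ) (u : E d → ℝ) : ℝ :=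
  ∫ x, φ'' (u x / H x) *
    ⟪(H x)⁻¹ • gradient u x - (u x / H x ^ 2) • gradient H x, cur W u x⟫_ℝ

/-- [EN] derivative of convex functionals. -/
def ClaimEN : Prop := ∀ (d : ℕ) (A K m κ κ' c : ℝ) (W H h : E d → ℝ) (ρ : ℝ → E d → ℝ)
  (φ φ' φ'' : ℝ → ℝ), Good d W A K m ρ → 0 < κ → κ ≤ 1 → Weight d κ h → Dom d h ρ →
  GDom d h ρ → (∀ x, 0 < H x) → ContDiff ℝ 1 H → (∀ x, ‖gradient H x‖ ≤ κ' * H x) →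
  (∀ x, h x ≤ c * H x) → ConvFn φ φ' φ'' →
  (∀ t, 0 < t → HasDerivAt (fun t => ∫ x, H x * φ (ρ t x / H x)) (-entProd W H φ'' (ρ t)) t) ∧
  ContinuousOn (fun t => entProd W H φ'' (ρ t)) (Ioi 0)

/-- [INT] derivative of the interaction energy. -/
def ClaimINT : Prop := ∀ (d : ℕ) (A K m : ℝ) (W : E d → ℝ) (ρ : ℝ → E d → ℝ),
  Good d W A K m ρ →
  (∀ t, 0 < t → HasDerivAt (fun t => (1 / 2 : ℝ) * ∫ x, ρ t x * V W (ρ t) x)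
    (-∫ x, ⟪drift W (ρ t) x, cur W (ρ t) x⟫_ℝ) t) ∧
  ContinuousOn (fun t => ∫ x, ⟪drift W (ρ t) x, cur W (ρ t) x⟫_ℝ) (Ioi 0)

/-- [ENTa] the entropy production inequality at a fixed time. -/
def ClaimENTa : Prop := ∀ (d : ℕ) (A K m κ : ℝ) (W h : E d → ℝ) (ρ : ℝ → E d → ℝ),
  Good d W A K m ρ → 0 < κ → κ ≤ 1 → Weight d κ h → Dom d h ρ → GDom d h ρ →
  ∀ t θ B : ℝ, 0 < t → 0 < θ → θ ≤ 1 → (∀ x, ‖drift W (ρ t) x‖ ≤ B) →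
  (-entProd W h (fun z => (z + θ)⁻¹) (ρ t) - ∫ x, ⟪drift W (ρ t) x, cur W (ρ t) x⟫_ℝ ≤
    -(1 / 2) * (∫ x, ‖cur W (ρ t) x‖ ^ 2 / (ρ t x + θ * h x)) + κ ^ 2 * m +
      θ * B ^ 2 * ∫ x, h x) ∧
  (∫ x, ‖cur W (ρ t) x‖) ^ 2 ≤
    (m + θ * ∫ x, h x) * ∫ x, ‖cur W (ρ t) x‖ ^ 2 / (ρ t x + θ * h x)

/-- [ENTb] the current is small in `L¹` at arbitrarily late times. -/
def ClaimENTb : Prop := ∀ (d : ℕ) (A K m : ℝ) (W : E d → ℝ) (ρ : ℝ → E d → ℝ),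
  Good d W A K m ρ → ∀ α t' : ℝ, 0 < α → ∃ t, t' ≤ t ∧ 0 < t ∧ ∫ x, ‖cur W (ρ t) x‖ < α

/-- [SM0] the functional `∫ Φ(ρ)` is small at arbitrarily late times. -/
def ClaimSM0 : Prop := ∀ (d : ℕ) (A K m : ℝ) (W : E d → ℝ) (ρ : ℝ → E d → ℝ), 0 < d →
  Good d W A K m ρ → ∀ η t' : ℝ, 0 < η → ∃ t, t' ≤ t ∧ 0 < t ∧ ∫ x, Phi (ρ t x) ≤ η

/-- The dissipation `∫ |∇u|²/(1+u)`. -/
noncomputable def dis {d : ℕ} (u : E d → ℝ) : ℝ := ∫ x, ‖gradient u x‖ ^ 2 / (1 + u x)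

/-- [D9a] the small data inequality at a fixed time. -/
def ClaimD9a : Prop := ∀ (d : ℕ) (A K m : ℝ) (W : E d → ℝ) (ρ : ℝ → E d → ℝ),
  Good d W A K m ρ →
  (∀ t, 0 < t →
    (∀ x, ‖drift W (ρ t) x‖ ^ 2 ≤ (A * (∫ x, |W x|) + A ^ 2 * m) * dis (ρ t)) ∧
    -(∫ x, (1 + ρ t x)⁻¹ * ⟪gradient (ρ t) x, cur W (ρ t) x⟫_ℝ) ≤
      -dis (ρ t) * (1 - Real.sqrt (2 * (A * (∫ x, |W x|) + A ^ 2 * m) *
        ∫ x, Phi (ρ t x)))) ∧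
  ContinuousOn (fun t => dis (ρ t)) (Ioi 0)

/-- [D9b] the small regime: `∫ Φ(ρ) → 0` and the drift is small in `L²_t L^∞_x`. -/
def ClaimD9b : Prop := ∀ (d : ℕ) (A K m : ℝ) (W : E d → ℝ) (ρ : ℝ → E d → ℝ), 0 < d →
  Good d W A K m ρ → ∃ (β : ℝ → ℝ) (t0 : ℝ), 0 < t0 ∧ ContinuousOn β (Ioi 0) ∧
    (∀ t, 0 < t → 0 ≤ β t ∧ ∀ x, ‖drift W (ρ t) x‖ ^ 2 ≤ β t) ∧
    (∀ T, t0 ≤ T → ∫ t in t0..T, β t ≤ 1 / 4) ∧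
    Tendsto (fun t => ∫ x, Phi (ρ t x)) atTop (𝓝 0)

/-- [Z] the differential inequality for `∫ ρ^(2q)`. -/
def ClaimZ : Prop := ∀ (d : ℕ) (A K m : ℝ) (W : E d → ℝ) (ρ : ℝ → E d → ℝ), 0 < d →
  Good d W A K m ρ → ∀ q : ℕ, 1 ≤ q → ∀ t, 0 < t →
  ∃ z' : ℝ, HasDerivAt (fun t => ∫ x, ρ t x ^ (2 * q)) z' t ∧
    ∀ τ β : ℝ, 0 < τ → (∀ x, ‖drift W (ρ t) x‖ ^ 2 ≤ β) →
      z' ≤ -(1 / (d * τ)) * (∫ x, ρ t x ^ (2 * q)) +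
        1 / (d * τ) * (4 * π * τ) ^ (-(d : ℝ) / 2) * (∫ x, ρ t x ^ q) ^ 2 +
        (2 * q) ^ 2 * β * ∫ x, ρ t x ^ (2 * q)

/-- [LAD] the ODE lemma behind the ladder. -/
def ClaimLad : Prop := ∀ (d : ℕ) (c : ℝ), 0 < d → 0 ≤ c → ∃ C : ℝ, 0 < C ∧
  ∀ (z β : ℝ → ℝ) (t1 S : ℝ), ContinuousOn β (Icc t1 (t1 + 1)) →
  (∀ t ∈ Icc t1 (t1 + 1), 0 ≤ β t ∧ 0 ≤ z t) → ∫ t in t1..(t1 + 1), β t ≤ 1 / 4 →
  (∀ t ∈ Icc t1 (t1 + 1), ∃ z' : ℝ, HasDerivAt z z' t ∧ ∀ τ : ℝ, 0 < τ →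
    z' ≤ -(1 / (d * τ)) * z t + 1 / (d * τ) * (4 * π * τ) ^ (-(d : ℝ) / 2) * S ^ 2 +
      c * β t * z t) →
  z (t1 + 1) ≤ C * S ^ 2

/-- [LP] decay of `∫ ρ^(2^k)`. -/
def ClaimLP : Prop := ∀ (d : ℕ) (A K m : ℝ) (W : E d → ℝ) (ρ : ℝ → E d → ℝ), 0 < d →
  Good d W A K m ρ → ∀ k : ℕ, 1 ≤ k → Tendsto (fun t => ∫ x, ρ t x ^ (2 ^ k)) atTop (𝓝 0)

/-- [SUP] from `L^r` to the sup norm. -/
def ClaimSup : Prop := ∀ (d : ℕ) (A K m : ℝ) (W : E d → ℝ) (ρ : ℝ → E d → ℝ) (r : ℕ), 0 < d →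
  Good d W A K m ρ → d + 1 ≤ r → ∃ c C : ℝ, 0 < c ∧ 0 < C ∧ ∀ a Z : ℝ, 0 < a → 0 ≤ Z → Z ≤ c →
    (∀ t, a ≤ t → t ≤ a + 1 → ∫ x, ρ t x ^ r ≤ Z) → ∀ x, ρ (a + 1) x ≤ C * Z ^ (1 / (r : ℝ))

end Pool.Agent.Work.MP_9371de_an
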