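import Mathlib

/-!
Definitions for MP_9371de_an (decay of the sup norm for aggregation-diffusion).
Everything lives on `E d = EuclideanSpace ℝ (Fin d)`.
-/

open MeasureTheory Set Filter Topology
open scoped Real InnerProductSpace

namespace Pool.Agent.Work.MP_9371de_an

/-- The Euclidean space `ℝ^d`. -/
abbrev E (d : ℕ) : Type := EuclideanSpace ℝ (Fin d)

/-- The Gauss kernel `G_t(x) = (4 π t)^(-d/2) exp (-|x|^2/(4t))`. -/
noncomputable def heat (d : ℕ) (t : ℝ) (x : E d) : ℝ :=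
  (4 * π * t) ^ (-(d : ℝ) / 2) * Real.exp (-‖x‖ ^ 2 / (4 * t))

/-- The gradient of the Gauss kernel, `∇G_t(x) = - (G_t(x)/(2t)) x`. -/
noncomputable def gheat (d : ℕ) (t : ℝ) (x : E d) : E d :=
  (-(heat d t x) / (2 * t)) • x

/-- The interaction field `W * u`. -/
noncomputable def V {d : ℕ} (W : E d → ℝ) (u : E d → ℝ) (x : E d) : ℝ :=
  ∫ y, W (x - y) * u y

/-- The drift `b = ∇(W * u)`. -/
noncomputable def drift {d : ℕ} (W : E d → ℝ) (u : E d → ℝ) (x : E d) : E d :=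
  gradient (V W u) x

/-- The flux `F = u ∇(W * u)`. -/
noncomputable def flux {d : ℕ} (W : E d → ℝ) (u : E d → ℝ) (x : E d) : E d :=
  u x • drift W u x

/-- The total current `j = ∇u + u ∇(W * u)`. -/
noncomputable def cur {d : ℕ} (W : E d → ℝ) (u : E d → ℝ) (x : E d) : E d :=
  gradient u x + flux W u x

/-- The heat semigroup `P_t u = G_t * u`. -/
noncomputable def P {d : ℕ} (t : ℝ) (u : E d → ℝ) (x : E d) : ℝ :=
  ∫ y, heat d t (x - y) * u y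

/-- `gP_t u = (∇G_t) * u = ∇ P_t u`. -/
noncomputable def gP {d : ℕ} (t : ℝ) (u : E d → ℝ) (x : E d) : E d :=
  ∫ y, u y • gheat d t (x - y)

/-- `Q_t F (x) = ∫ ⟨∇G_t(x - y), F(y)⟩ dy = P_t (div F)`. -/
noncomputable def Q {d : ℕ} (t : ℝ) (F : E d → E d) (x : E d) : ℝ :=
  ∫ y, ⟪gheat d t (x - y), F y⟫_ℝ

/-- A bounded, even, integrable potential of bounded variation. -/
structure Pot (d : ℕ) (A K : ℝ) (W : E d → ℝ) : Prop where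
  A_pos : 0 < A
  K_pos : 0 < K
  meas : Measurable W
  even : ∀ x, W (-x) = W x
  bdd : ∀ x, |W x| ≤ A
  int : Integrable W
  bv : ∀ k, ∫ x, |W (x + k) - W x| ≤ K * ‖k‖

/-- A slowly varying integrable weight. -/
structure Weight (d : ℕ) (κ : ℝ) (h : E d → ℝ) : Prop where
  pos : ∀ x, 0 < h x
  c1 : ContDiff ℝ 1 h
  int : Integrable h
  bdd : ∃ B, ∀ x, h x ≤ B
  grad : ∀ x, ‖gradient h x‖ ≤ κ * h x
  harnack : ∀ x y, h (x + y) ≤ Real.exp (κ * ‖y‖) * h x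

/-- A clean mild solution (`ε = 1`) with mass `m`, defined for all times `t ≥ 0`
(`ρ t = 0` may be assumed for `t < 0`, only to have simple measurability). -/
structure Clean (d : ℕ) (W : E d → ℝ) (m : ℝ) (ρ : ℝ → E d → ℝ) : Prop where
  meas : Measurable (fun p : ℝ × E d => ρ p.1 p.2)
  nonneg : ∀ t x, 0 ≤ ρ t x
  cont : ∀ t, 0 < t → Continuous (ρ t)
  int : ∀ t, Integrable (ρ t)
  mass : ∀ t, 0 ≤ t → ∫ x, ρ t x = m
  bdd : ∀ T : ℝ, ∃ M, ∀ t, t ≤ T → ∀ x, ρ t x ≤ M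
  dmeas : Measurable (fun p : ℝ × E d => drift W (ρ p.1) p.2)
  restart : ∀ s t, 0 ≤ s → s < t → ∀ x,
    ρ t x = P (t - s) (ρ s) x + ∫ r in s..t, Q (t - r) (flux W (ρ r)) x

/-- `h` dominates `ρ` on compact time intervals of `(0,∞)`. -/
def Dom (d : ℕ) (h : E d → ℝ) (ρ : ℝ → E d → ℝ) : Prop :=
  ∀ a T : ℝ, 0 < a → ∃ C, ∀ t, a ≤ t → t ≤ T → ∀ x, ρ t x ≤ C * h x

/-- `h` dominates the gradient of `ρ` on compact time intervals of `(0,∞)`. -/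
def GDom (d : ℕ) (h : E d → ℝ) (ρ : ℝ → E d → ℝ) : Prop :=
  ∀ a T : ℝ, 0 < a → ∃ C, ∀ t, a ≤ t → t ≤ T → ∀ x, ‖gradient (ρ t) x‖ ≤ C * h x

/-- Everything the decay argument needs to know about the solution on `(0,∞)`. -/
structure Good (d : ℕ) (W : E d → ℝ) (A K m : ℝ) (ρ : ℝ → E d → ℝ) : Prop where
  pot : Pot d A K W
  nonneg : ∀ t x, 0 ≤ ρ t x
  int : ∀ t, 0 < t → Integrable (ρ t)
  mass : ∀ t, 0 < t → ∫ x, ρ t x = m
  c1 : ∀ t, 0 < t → ContDiff ℝ 1 (ρ t)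
  weight : ∀ κ, 0 < κ → κ ≤ 1 → ∃ h, Weight d κ h ∧ Dom d h ρ ∧ GDom d h ρ
  tcont : ∀ x, ContinuousOn (fun t => ρ t x) (Ioi 0)
  gcont : ∀ x, ContinuousOn (fun t => gradient (ρ t) x) (Ioi 0)
  /-- `b = W * ∇ρ` -/
  vgrad : ∀ t, 0 < t → ∀ x,
    HasGradientAt (V W (ρ t)) (∫ y, W (x - y) • gradient (ρ t) y) x
  bxcont : ∀ t, 0 < t → Continuous (drift W (ρ t))
  btcont : ∀ x, ContinuousOn (fun t => drift W (ρ t) x) (Ioi 0)
  /-- `|b| ≤ K sup ρ` -/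
  bsup : ∀ t, 0 < t → ∀ N, (∀ x, ρ t x ≤ N) → ∀ x, ‖drift W (ρ t) x‖ ≤ K * N
  wf : ∀ (ψ : E d → ℝ) (M : ℝ), ContDiff ℝ 1 ψ → (∀ x, |ψ x| ≤ M) → (∀ x, ‖gradient ψ x‖ ≤ M) →
    ∀ s t, 0 < s → s ≤ t →
      (∫ x, ψ x * ρ t x) - ∫ x, ψ x * ρ s x =
        - ∫ r in s..t, ∫ x, ⟪gradient ψ x, cur W (ρ r) x⟫_ℝ
  restart : ∀ s t, 0 < s → s < t → ∀ x,
    ρ t x = P (t - s) (ρ s) x + ∫ r in s..t, Q (t - r) (flux W (ρ r)) x

/-- `Φ(z) = (1+z) log (1+z) - z`. -/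
noncomputable def Phi (z : ℝ) : ℝ := (1 + z) * Real.log (1 + z) - z

/-! ### The statement -/

/-- `ρ` is a (global, nonnegative) mild solution of
`∂_t ρ = ε Δρ + ∇·(ρ ∇(W*ρ))`, `ρ(0) = ρ0`, in the class
`C([0,∞); L¹) ∩ L^∞_loc([0,∞); L^∞)`. -/
structure IsSolution (d : ℕ) (ε : ℝ) (W ρ0 : E d → ℝ) (ρ : ℝ → E d → ℝ) : Prop where
  /-- joint measurability -/
  meas : Measurable (fun p : ℝ × E d => ρ p.1 p.2)
  /-- the density is nonnegative -/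
  nonneg : ∀ t, 0 ≤ t → ∀ᵐ x, 0 ≤ ρ t x
  /-- finite mass -/
  int : ∀ t, 0 ≤ t → Integrable (ρ t)
  /-- locally bounded in time with values in `L^∞` -/
  bdd : ∀ T : ℝ, ∃ M : ℝ, ∀ t, 0 ≤ t → t ≤ T → ∀ᵐ x, ρ t x ≤ M
  /-- continuous in time with values in `L¹` -/
  cont : ∀ t, 0 ≤ t → Tendsto (fun s => ∫ x, |ρ s x - ρ t x|) (𝓝[Ici 0] t) (𝓝 0)
  /-- initial datum -/
  init : ρ 0 =ᵐ[volume] ρ0
  /-- the Duhamel formula
  `ρ(t) = G_{εt} * ρ0 + ∫_0^t (∇ G_{ε(t-s)}) * (ρ(s) ∇(W*ρ(s))) ds` -/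
  duhamel : ∀ t, 0 < t → ∀ᵐ x,
    ρ t x = (∫ y, heat d (ε * t) (x - y) * ρ0 y) +
      ∫ s in (0 : ℝ)..t, ∫ y,
        ⟪gradient (heat d (ε * (t - s))) (x - y),
          ρ s y • gradient (fun z => ∫ w, W (z - w) * ρ s w) y⟫_ℝ

/-- `W` is attractive: radially symmetric and non-decreasing in the radial variable. -/
def Attractive {d : ℕ} (W : E d → ℝ) : Prop :=
  ∃ ω : ℝ → ℝ, MonotoneOn ω (Ici 0) ∧ ∀ x, W x = ω ‖x‖

end Pool.Agent.Work.MP_9371de_an
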