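import Pool.Agent.Work.MP_9371de_an.Claims

/-!
[WT]: weights dominating heat extensions.
-/

open MeasureTheory Set Filter Topology
open scoped Real InnerProductSpace

namespace Pool.Agent.Work.MP_9371de_an

namespace WT

/-- The basic weight. -/
noncomputable def w (d : ℕ) (κ : ℝ) (x : E d) : ℝ := Real.exp (-κ * Real.sqrt (1 + ‖x‖ ^ 2))

theorem w_pos (d : ℕ) (κ : ℝ) (x : E d) : 0 < w d κ x := Real.exp_pos _

theorem w_le_one (d : ℕ) {κ : ℝ} (hκ : 0 < κ) (x : E d) : w d κ x ≤ 1 := by
  rw [w, Real.exp_le_one_iff]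
  have := Real.sqrt_nonneg (1 + ‖x‖ ^ 2)
  nlinarith

theorem w_contDiff (d : ℕ) (κ : ℝ) : ContDiff ℝ 1 (w d κ) := by
  unfold w
  refine ContDiff.exp (contDiff_const.mul (ContDiff.sqrt ?_ ?_))
  · exact contDiff_const.add (contDiff_norm_sq ℝ)
  · intro x
    positivity

/-- `sqrt (1 + |x|^2)` is 1-Lipschitz. -/
theorem sqrt_lip (d : ℕ) (x y : E d) :
    Real.sqrt (1 + ‖x‖ ^ 2) ≤ Real.sqrt (1 + ‖x + y‖ ^ 2) + ‖y‖ := by
  have h1 : ‖x‖ ≤ ‖x + y‖ + ‖y‖ := by
    have := norm_sub_le (x + y) y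
    simpa using this
  have h2 := Real.sqrt_nonneg (1 + ‖x + y‖ ^ 2)
  have h3 := Real.sq_sqrt (show 0 ≤ 1 + ‖x + y‖ ^ 2 by positivity)
  have h4 : ‖x + y‖ ≤ Real.sqrt (1 + ‖x + y‖ ^ 2) := by
    apply Real.le_sqrt_of_sq_le
    linarith
  apply Real.sqrt_le_iff.2
  refine ⟨by positivity, ?_⟩
  have h5 : ‖x‖ ^ 2 ≤ (‖x + y‖ + ‖y‖) ^ 2 := by
    apply pow_le_pow_left₀ (norm_nonneg x) h1
  nlinarith [norm_nonneg y, norm_nonneg (x + y)]

theorem w_harnack (d : ℕ) {κ : ℝ} (hκ : 0 < κ) (x y : E d) :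
    w d κ (x + y) ≤ Real.exp (κ * ‖y‖) * w d κ x := by
  rw [w, w, ← Real.exp_add]
  apply Real.exp_le_exp.2
  have := sqrt_lip d x y
  nlinarith

theorem w_integrable (d : ℕ) {κ : ℝ} (hκ : 0 < κ) : Integrable (w d κ) := by
  have h1 : Integrable (fun x : E d => ((1 : ℝ) + ‖x‖ ^ 2) ^ (-((d : ℝ) + 1) / 2)) := by
    apply integrable_rpow_neg_one_add_norm_sq
    rw [finrank_euclideanSpace_fin]
    linarith
  have h2 := h1.const_mul (((d + 1).factorial : ℝ) / κ ^ (d + 1))
  refine h2.mono' (w_contDiff d κ).continuous.aestronglyMeasurable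
    (Filter.Eventually.of_forall fun x => ?_)
  rw [Real.norm_of_nonneg (w_pos d κ x).le, w]
  set s := Real.sqrt (1 + ‖x‖ ^ 2) with hs
  have hs1 : 0 < s := Real.sqrt_pos.2 (by positivity)
  have h3 := Real.pow_div_factorial_le_exp (x := κ * s) (by positivity) (d + 1)
  have h4 : ((1 : ℝ) + ‖x‖ ^ 2) ^ (-((d : ℝ) + 1) / 2) = (s ^ (d + 1))⁻¹ := by
    have h5 : (1 : ℝ) + ‖x‖ ^ 2 = s ^ 2 := (Real.sq_sqrt (by positivity)).symm
    rw [h5, ← Real.rpow_natCast s 2, ← Real.rpow_mul hs1.le, ← Real.rpow_natCast s (d + 1),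
      ← Real.rpow_neg hs1.le]
    congr 1
    push_cast
    ring
  rw [h4, neg_mul, Real.exp_neg]
  have h6 : (0 : ℝ) < (d + 1).factorial := by exact_mod_cast Nat.factorial_pos _
  have h7 : (0 : ℝ) < (κ * s) ^ (d + 1) := by positivity
  calc (Real.exp (κ * s))⁻¹ ≤ ((κ * s) ^ (d + 1) / (d + 1).factorial)⁻¹ :=
        inv_anti₀ (by positivity) h3
    _ = _ := by
        rw [mul_pow]
        field_simp

/-- A positive differentiable function with the Harnack property has a small gradient. -/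
theorem grad_le (d : ℕ) {κ : ℝ} (hκ : 0 < κ) {h : E d → ℝ} (hd : Differentiable ℝ h)
    (hh : ∀ x y, h (x + y) ≤ Real.exp (κ * ‖y‖) * h x) (hp : ∀ x, 0 < h x) (x : E d) :
    ‖fderiv ℝ h x‖ ≤ κ * h x := by
  have key : ∀ v : E d, fderiv ℝ h x v ≤ κ * h x * ‖v‖ := by
    intro v
    have h1 : HasDerivAt (fun t : ℝ => h (x + t • v)) (fderiv ℝ h x v) 0 := by
      have h2 : HasFDerivAt h (fderiv ℝ h x) (x + (0 : ℝ) • v) := by
        simpa using (hd x).hasFDerivAt
      have h3 : HasDerivAt (fun t : ℝ => x + t • v) v 0 := by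
        simpa using ((hasDerivAt_id (0 : ℝ)).smul_const v).const_add x
      exact h2.comp_hasDerivAt 0 h3
    have h4 : HasDerivAt (fun t : ℝ => Real.exp (κ * (t * ‖v‖)) * h x) (κ * h x * ‖v‖) 0 := by
      have h5 : HasDerivAt (fun t : ℝ => κ * (t * ‖v‖)) (κ * ‖v‖) 0 := by
        simpa using ((hasDerivAt_id (0 : ℝ)).mul_const ‖v‖).const_mul κ
      have h6 := (h5.exp).mul_const (h x)
      simp only [zero_mul, mul_zero, Real.exp_zero, one_mul] at h6
      have e : κ * h x * ‖v‖ = κ * ‖v‖ * h x := by ring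
      rw [e]
      exact h6
    -- compare the slopes for t > 0
    have h7 : HasDerivAt (fun t : ℝ => Real.exp (κ * (t * ‖v‖)) * h x - h (x + t • v))
        (κ * h x * ‖v‖ - fderiv ℝ h x v) 0 := h4.sub h1
    have h8 : 0 ≤ κ * h x * ‖v‖ - fderiv ℝ h x v := by
      have h9 := h7.hasDerivWithinAt (s := Ioi 0)
      rw [hasDerivWithinAt_iff_tendsto_slope' (by simp)] at h9
      refine ge_of_tendsto h9 ?_
      filter_upwards [self_mem_nhdsWithin] with t ht
      have ht0 : (0 : ℝ) < t := ht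
      rw [slope_def_field]
      apply div_nonneg _ (by linarith)
      have h10 := hh x (t • v)
      rw [norm_smul, Real.norm_of_nonneg ht0.le] at h10
      simp only [zero_mul, mul_zero, Real.exp_zero, one_mul, zero_smul, add_zero, sub_self,
        sub_zero]
      linarith
    linarith
  refine ContinuousLinearMap.opNorm_le_bound _ (by have := hp x; positivity) fun v => ?_
  rw [Real.norm_eq_abs, abs_le]
  constructor
  · have := key (-v)
    rw [map_neg, norm_neg] at this
    linarith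
  · exact key v

theorem norm_gradient (d : ℕ) (h : E d → ℝ) (x : E d) : ‖gradient h x‖ = ‖fderiv ℝ h x‖ := by
  rw [gradient, LinearIsometryEquiv.norm_map]

/-- The convolution. -/
noncomputable def cv (d : ℕ) (κ : ℝ) (u : E d → ℝ) (x : E d) : ℝ := ∫ y, w d κ (x - y) * u y

theorem cv_int (d : ℕ) {κ : ℝ} (hκ : 0 < κ) {u : E d → ℝ} (hu : Integrable u) (x : E d) :
    Integrable (fun y => w d κ (x - y) * u y) := by
  refine hu.norm.mono' ?_ (Filter.Eventually.of_forall fun y => ?_)
  · exact ((w_contDiff d κ).continuous.comp (continuous_const.sub continuous_id)).aestronglyMeasurable.mul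
      hu.aestronglyMeasurable
  · rw [norm_mul, Real.norm_of_nonneg (w_pos d κ _).le]
    exact mul_le_of_le_one_left (norm_nonneg _) (w_le_one d hκ _)

theorem cv_fderiv (d : ℕ) {κ : ℝ} (hκ : 0 < κ) {u : E d → ℝ} (hu : Integrable u) (x : E d) :
    HasFDerivAt (cv d κ u) (∫ y, u y • fderiv ℝ (w d κ) (x - y)) x := by
  have hwc := w_contDiff d κ
  have hwd : Differentiable ℝ (w d κ) := hwc.differentiable (by simp)
  have hwf : Continuous (fderiv ℝ (w d κ)) := hwc.continuous_fderiv (by simp)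
  have hb : ∀ z, ‖fderiv ℝ (w d κ) z‖ ≤ κ := fun z =>
    (grad_le d hκ hwd (w_harnack d hκ) (w_pos d κ) z).trans
      (mul_le_of_le_one_right hκ.le (w_le_one d hκ z))
  refine hasFDerivAt_integral_of_dominated_of_fderiv_le (s := univ)
    (F' := fun x y => u y • fderiv ℝ (w d κ) (x - y)) (bound := fun y => κ * ‖u y‖)
    univ_mem (Filter.Eventually.of_forall fun z => (cv_int d hκ hu z).aestronglyMeasurable)
    (cv_int d hκ hu x) ?_ ?_ (hu.norm.const_mul κ) ?_
  · exact hu.aestronglyMeasurable.smul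
      (hwf.comp (continuous_const.sub continuous_id)).aestronglyMeasurable
  · refine Filter.Eventually.of_forall fun y z _ => ?_
    rw [norm_smul, mul_comm]
    exact mul_le_mul_of_nonneg_right (hb _) (norm_nonneg _)
  · refine Filter.Eventually.of_forall fun y z _ => ?_
    have h0 : HasFDerivAt (fun z : E d => z - y) (ContinuousLinearMap.id ℝ (E d)) z :=
      (hasFDerivAt_id z).sub_const y
    have h0' : HasFDerivAt (w d κ) (fderiv ℝ (w d κ) (z - y)) (z - y) := (hwd (z - y)).hasFDerivAt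
    have h1 : HasFDerivAt (fun z : E d => w d κ (z - y)) (fderiv ℝ (w d κ) (z - y)) z := by
      have := HasFDerivAt.comp z h0' h0
      rwa [ContinuousLinearMap.comp_id] at this
    have h2 := h1.mul_const (u y)
    exact h2

theorem cv_contDiff (d : ℕ) {κ : ℝ} (hκ : 0 < κ) {u : E d → ℝ} (hu : Integrable u) :
    ContDiff ℝ 1 (cv d κ u) := by
  have hwc := w_contDiff d κ
  have hwd : Differentiable ℝ (w d κ) := hwc.differentiable (by simp)
  have hwf : Continuous (fderiv ℝ (w d κ)) := hwc.continuous_fderiv (by simp)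
  have hb : ∀ z, ‖fderiv ℝ (w d κ) z‖ ≤ κ := fun z =>
    (grad_le d hκ hwd (w_harnack d hκ) (w_pos d κ) z).trans
      (mul_le_of_le_one_right hκ.le (w_le_one d hκ z))
  rw [contDiff_one_iff_fderiv]
  refine ⟨fun x => (cv_fderiv d hκ hu x).differentiableAt, ?_⟩
  have h1 : fderiv ℝ (cv d κ u) = fun x => ∫ y, u y • fderiv ℝ (w d κ) (x - y) := by
    funext x
    exact (cv_fderiv d hκ hu x).fderiv
  rw [h1]
  refine continuous_of_dominated (bound := fun y => κ * ‖u y‖) (fun x => ?_) (fun x => ?_)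
    (hu.norm.const_mul κ) ?_
  · exact hu.aestronglyMeasurable.smul
      (hwf.comp (continuous_const.sub continuous_id)).aestronglyMeasurable
  · refine Filter.Eventually.of_forall fun y => ?_
    rw [norm_smul, mul_comm]
    exact mul_le_mul_of_nonneg_right (hb _) (norm_nonneg _)
  · refine Filter.Eventually.of_forall fun y => ?_
    exact (hwf.comp (continuous_id.sub continuous_const)).const_smul (u y)

theorem cv_integrable (d : ℕ) {κ : ℝ} (hκ : 0 < κ) {u : E d → ℝ} (hu : Integrable u) :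
    Integrable (cv d κ u) := by
  have h := hu.integrable_convolution (ContinuousLinearMap.mul ℝ ℝ) (w_integrable d hκ)
  refine h.congr (Filter.Eventually.of_forall fun x => ?_)
  rw [cv, convolution]
  refine integral_congr_ae (Filter.Eventually.of_forall fun y => ?_)
  change u y * w d κ (x - y) = w d κ (x - y) * u y
  ring

end WT

open WT in
theorem itemWT (h6 : ClaimH6) : ClaimWT := by
  intro d κ u hκ hκ1 hum hui hu0
  refine ⟨fun x => w d κ x + cv d κ u x, ?_, ?_⟩
  · have hcv0 : ∀ x, 0 ≤ cv d κ u x := fun x =>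
      integral_nonneg fun y => mul_nonneg (w_pos d κ _).le (hu0 y)
    have hpos : ∀ x, 0 < w d κ x + cv d κ u x := fun x =>
      add_pos_of_pos_of_nonneg (w_pos d κ x) (hcv0 x)
    have hc1 : ContDiff ℝ 1 (fun x => w d κ x + cv d κ u x) :=
      (w_contDiff d κ).add (cv_contDiff d hκ hui)
    have hhar : ∀ x y, w d κ (x + y) + cv d κ u (x + y) ≤
        Real.exp (κ * ‖y‖) * (w d κ x + cv d κ u x) := by
      intro x y
      rw [mul_add]
      refine add_le_add (w_harnack d hκ x y) ?_
      rw [cv, cv, ← integral_const_mul]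
      refine integral_mono (cv_int d hκ hui _) ((cv_int d hκ hui x).const_mul _) fun z => ?_
      have h1 := w_harnack d hκ (x - z) y
      have h2 : x - z + y = x + y - z := by abel
      rw [h2] at h1
      change w d κ (x + y - z) * u z ≤ Real.exp (κ * ‖y‖) * (w d κ (x - z) * u z)
      rw [← mul_assoc]
      exact mul_le_mul_of_nonneg_right h1 (hu0 z)
    refine ⟨hpos, hc1, (w_integrable d hκ).add (cv_integrable d hκ hui), ?_, ?_, hhar⟩
    · refine ⟨1 + ∫ y, u y, fun x => add_le_add (w_le_one d hκ x) ?_⟩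
      rw [cv]
      refine integral_mono (cv_int d hκ hui x) hui fun y => ?_
      exact mul_le_of_le_one_left (hu0 y) (w_le_one d hκ _)
    · intro x
      rw [norm_gradient]
      exact grad_le d hκ (hc1.differentiable (by simp)) hhar hpos x
  · intro a T ha
    obtain ⟨C, hC, hb⟩ := h6 d κ a T hκ ha
    refine ⟨C, fun t hat htT x => ?_⟩
    have ht : 0 < t := lt_of_lt_of_le ha hat
    have h1 : P t u x ≤ C * cv d κ u x := by
      rw [P, cv, ← integral_const_mul]
      refine integral_mono_of_nonneg (Filter.Eventually.of_forall fun y => ?_)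
        ((cv_int d hκ hui x).const_mul C) (Filter.Eventually.of_forall fun y => ?_)
      · change 0 ≤ heat d t (x - y) * u y
        refine mul_nonneg ?_ (hu0 y)
        rw [heat]
        positivity
      · change heat d t (x - y) * u y ≤ C * (w d κ (x - y) * u y)
        rw [← mul_assoc]
        exact mul_le_mul_of_nonneg_right (hb t hat htT (x - y)) (hu0 y)
    have h2 : 0 ≤ C * w d κ x := mul_nonneg hC.le (w_pos d κ x).le
    change P t u x ≤ C * (w d κ x + cv d κ u x)
    linarith

end Pool.Agent.Work.MP_9371de_an
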