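import Pool.Agent.Work.MP_9371de_an.Bd.B03
import Pool.Agent.Work.MP_9371de_an.Bd.B01
import Pool.Agent.Work.MP_9371de_an.Bd.B04
import Pool.Agent.Work.MP_9371de_an.Bd.B02
import Pool.Agent.Work.MP_9371de_an.ItemWT

open MeasureTheory Set Filter Topology
open scoped Real InnerProductSpace

namespace Pool.Agent.Work.MP_9371de_an

theorem allP1 : ClaimP1 := itemP1 itemH1 itemH4
theorem allP2 : ClaimP2 := itemP2 itemH1 itemH3 itemH4
theorem allP3 : ClaimP3 := itemP3 itemH1 itemH4 allP1 allP2
theorem allP4 : ClaimP4 := itemP4 itemH1 itemH4 allP3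
theorem allP5 : ClaimP5 := itemP5 itemH1 itemH4 allP3
theorem allPM : ClaimPM := itemPM itemH1m
theorem allH5 : ClaimH5 := itemH5 itemH1 itemH4
theorem allJ : ClaimJ := itemJ itemH1 itemH2 allH5
theorem allV2 : ClaimV2 := itemV2 itemV1
theorem allFL : ClaimFL := itemFL itemV1 allV2
theorem allR2 : ClaimR2 := itemR2 itemH1 itemH4 allP1 allP2 itemV1
theorem allWT : ClaimWT := itemWT itemH6
theorem allR4 : ClaimR4 := itemR4 itemH1 allH5 allP1 allP3 allPM itemV1 allV2 itemBeta
theorem allR5 : ClaimR5 := itemR5 allP1 allP3 allP4 allPM itemV1 allFL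
theorem allR6 : ClaimR6 := itemR6 allP3 allP4 allP5 allPM itemV1 itemVC allFL allR5
theorem allNash : ClaimNash := itemNash itemH1 itemH2 itemTR
theorem allE4 : ClaimE4 := itemE4 itemH1 itemH2 itemTR
theorem allDL : ClaimDL := itemDL itemCC
theorem allEN : ClaimEN := itemEN itemCC allDL
theorem allINT : ClaimINT := itemINT allDL itemCC itemV1
theorem allENTa : ClaimENTa := itemENTa itemCC
theorem allENTb : ClaimENTb := itemENTb allEN allINT allENTa itemCC
theorem allSM0 : ClaimSM0 := itemSM0 allENTb allE4 itemV1 itemCC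
theorem allD9a : ClaimD9a := itemD9a itemCC
theorem allD9b : ClaimD9b := itemD9b allEN allSM0 allD9a
theorem allZ : ClaimZ := itemZ allEN allNash itemCC
theorem allLP : ClaimLP := itemLP itemCC allD9b allZ itemLad
theorem allSup : ClaimSup := itemSup itemH1 itemH4
theorem allP6 : ClaimP6 := itemP6 itemH1 allP1
theorem allP7 : ClaimP7 := itemP7 itemH1 itemH4
theorem allR9 : ClaimR9 :=
  itemR9 itemH1 itemH4 allP1 allP3 allP6 allP7 allPM allJ itemV1
theorem allClean : ClaimClean :=
  claimClean itemH1 itemH4 allP1 allP2 allP3 allP7 allPM itemV1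
theorem allGood : ClaimGood :=
  itemGood allR2 allWT allR4 allR5 allR6 allR9 itemV1 itemV3

end Pool.Agent.Work.MP_9371de_an
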